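import Pool.Agent.V7H41.CC.Spec4
import Pool.Agent.V7H84.CC.UPPER
import Pool.Agent.V7H84.CC.WB
import Pool.Agent.V7H46.CC.AVB
import Pool.Agent.V7H80.CC.FACT
import Pool.Agent.V7H98.CC.RHO

/-!
# The average is close to the binomial coefficient for `m ≥ 0.97 sqrt n`
-/

set_option autoImplicit false

open Finset Pool.Agent.V7H41.CC Pool.Agent.V7H84.CC

namespace Pool.Agent.V7H90.CC

/-- the terms with `r` small -/
theorem small_sum (n m R : ℕ) (hm : 1 ≤ m) (hn : 9409 * (n : ℝ) ≤ 10000 * (m : ℝ) ^ 2)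
    (hR : 20 * R ≤ m) :
    ∑ r ∈ Icc 2 R, (7 * (n : ℝ)) ^ (r - 1) * ((m + 1).factorial : ℝ) * (r.factorial : ℝ) *
        ((m - r + 2).factorial : ℝ) / ((m + r).factorial : ℝ) ^ 2 ≤ 28 * (n : ℝ) / (m : ℝ) ^ 3 := by
  obtain ⟨f, hf⟩ : ∃ f : ℕ → ℝ, f = fun r => (7 * (n : ℝ)) ^ (r - 1) * ((m + 1).factorial : ℝ) *
    (r.factorial : ℝ) * ((m - r + 2).factorial : ℝ) / ((m + r).factorial : ℝ) ^ 2 := ⟨_, rfl⟩
  have hmR : (1 : ℝ) ≤ m := by exact_mod_cast hm
  have hmpos : (0 : ℝ) < m := by linarith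
  have hf0 : ∀ r, 0 ≤ f r := fun r => by rw [hf]; positivity
  have hstep : ∀ r, 2 ≤ r → 20 * (r + 1) ≤ m → 2 * f (r + 1) ≤ f r := by
    intro r hr hrm
    obtain ⟨k, rfl⟩ : ∃ k, r = k + 1 := ⟨r - 1, by omega⟩
    obtain ⟨l, hl⟩ : ∃ l, m = k + 1 + 1 + l := ⟨m - (k + 1 + 1), by omega⟩
    have e1 : m - (k + 1) + 2 = (l + 2) + 1 := by omega
    have e2 : m - (k + 1 + 1) + 2 = l + 2 := by omega
    have hrat : f (k + 1 + 1) = f (k + 1) * (7 * n * ((k : ℝ) + 2) /
        (((l : ℝ) + 3) * ((m : ℝ) + k + 2) ^ 2)) := by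
      rw [hf]
      simp only
      rw [e1, e2, Nat.add_sub_cancel, Nat.add_sub_cancel, ← Nat.add_assoc m (k + 1) 1,
        Nat.factorial_succ (m + (k + 1)), Nat.factorial_succ (k + 1), Nat.factorial_succ (l + 2),
        pow_succ]
      push_cast
      field_simp
      ring
    rw [hrat]
    have hk : 20 * ((k : ℝ) + 2) ≤ m := by exact_mod_cast hrm
    have hl' : (m : ℝ) = k + 2 + l := by rw [hl]; push_cast; ring
    have hk0 : (0 : ℝ) ≤ k := Nat.cast_nonneg k
    have key : 7 * n * ((k : ℝ) + 2) / (((l : ℝ) + 3) * ((m : ℝ) + k + 2) ^ 2) ≤ 1 / 2 := by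
      rw [div_le_div_iff₀ (by positivity) (by norm_num)]
      have a1 : (n : ℝ) * ((k : ℝ) + 2) ≤ 1.07 * (m : ℝ) ^ 2 * (m / 20) := by
        have : (n : ℝ) ≤ 1.07 * (m : ℝ) ^ 2 := by nlinarith
        refine mul_le_mul this (by linarith) (by positivity) (by positivity)
      have a2 : 0.95 * (m : ℝ) * (m : ℝ) ^ 2 ≤ ((l : ℝ) + 3) * ((m : ℝ) + k + 2) ^ 2 := by
        refine mul_le_mul (by linarith) ?_ (by positivity) (by positivity)
        exact pow_le_pow_left₀ hmpos.le (by linarith) 2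
      have a3 : (0 : ℝ) ≤ (m : ℝ) ^ 3 := by positivity
      nlinarith
    nlinarith [hf0 (k + 1)]
  have hsum : ∀ r, 2 ≤ r → 20 * r ≤ m → ∑ j ∈ Icc 2 r, f j ≤ 2 * f 2 - f r := by
    intro r hr
    induction r, hr using Nat.le_induction with
    | base => intro _; simp; linarith
    | succ r hr ih =>
      intro hrm
      rw [Finset.sum_Icc_succ_top (by omega)]
      have h1 := ih (by omega)
      have h2 := hstep r hr hrm
      linarith
  have h2 : 2 * f 2 ≤ 28 * (n : ℝ) / (m : ℝ) ^ 3 := by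
    rw [hf]
    simp only
    rcases Nat.lt_or_ge m 2 with h | h
    · have h1 : m = 1 := by omega
      subst h1
      norm_num [Nat.factorial]
      have : (0 : ℝ) ≤ n := Nat.cast_nonneg n
      linarith
    have e1 : m - 2 + 2 = m := by omega
    rw [e1, ← Nat.add_assoc m 1 1 , Nat.factorial_succ (m + 1), Nat.factorial_succ m]
    have hp : (0 : ℝ) < m.factorial := by positivity
    have e2 : 2 * ((7 * (n : ℝ)) ^ (2 - 1) * (((m + 1) * m.factorial : ℕ) : ℝ) *
        ((2 : ℕ).factorial : ℝ) * (m.factorial : ℝ) /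
        (((m + 1 + 1) * ((m + 1) * m.factorial) : ℕ) : ℝ) ^ 2) =
        28 * (n : ℝ) / (((m : ℝ) + 2) ^ 2 * (m + 1)) := by
      push_cast
      norm_num [Nat.factorial]
      field_simp
      ring
    rw [e2]
    refine div_le_div_of_nonneg_left (by positivity) (by positivity) ?_
    nlinarith
  change ∑ j ∈ Icc 2 R, _ ≤ _
  have hgoal : ∑ r ∈ Icc 2 R, (7 * (n : ℝ)) ^ (r - 1) * ((m + 1).factorial : ℝ) *
      (r.factorial : ℝ) * ((m - r + 2).factorial : ℝ) / ((m + r).factorial : ℝ) ^ 2 =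
      ∑ j ∈ Icc 2 R, f j := by rw [hf]
  rw [hgoal]
  rcases Nat.lt_or_ge R 2 with h | h
  · rw [Finset.Icc_eq_empty (by omega), Finset.sum_empty]
    positivity
  · have := hsum R h hR
    linarith [hf0 R]

theorem log_two_ge : (0.6931 : ℝ) ≤ Real.log 2 := by
  have := Real.log_two_gt_d9
  linarith

/-- the logarithms at the two ends -/
theorem end_m (n m : ℕ) (y : ℝ) (hy0 : 0 < y) (hm : 20 ≤ m) (hmn : m < n)
    (hn : 9409 * (n : ℝ) ≤ 10000 * (m : ℝ) ^ 2) :
    ((m + 1).factorial : ℝ) * ((n : ℝ) ^ m * m.factorial * y ^ m * (2 / y) ^ m /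
      ((m + m).factorial : ℝ) ^ 2) ≤ Real.exp (-(m : ℝ) / 64 + 3 * Real.log (m + 1) + 4) := by
  have hm20 : (20 : ℝ) ≤ m := by exact_mod_cast hm
  have hmpos : (0 : ℝ) < m := by linarith
  have hnm : (m : ℝ) < n := by exact_mod_cast hmn
  have hnpos : (0 : ℝ) < n := by linarith
  have e1 : y ^ m * (2 / y) ^ m = 2 ^ m := by
    rw [← mul_pow, mul_div_cancel₀ _ hy0.ne']
  have e2 : (n : ℝ) ^ m * m.factorial * y ^ m * (2 / y) ^ m = (n : ℝ) ^ m * m.factorial * 2 ^ m := by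
    rw [mul_assoc _ (y ^ m), e1]
  rw [e2]
  have hpos : 0 < ((m + 1).factorial : ℝ) * ((n : ℝ) ^ m * m.factorial * 2 ^ m /
      ((m + m).factorial : ℝ) ^ 2) := by positivity
  rw [← Real.log_le_iff_le_exp hpos, Real.log_mul (by positivity) (by positivity),
    Real.log_div (by positivity) (by positivity), Real.log_mul (by positivity) (by positivity),
    Real.log_mul (by positivity) (by positivity), Real.log_pow, Real.log_pow, Real.log_pow,
    Nat.factorial_succ]
  push_cast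
  rw [Real.log_mul (by positivity) (by positivity)]
  have h1 := log_fact_ge (m + m)
  have h2 := log_fact_le m (by omega)
  have h3 : Real.log ((m + m : ℕ) : ℝ) = Real.log 2 + Real.log m := by
    rw [← Real.log_mul (by norm_num) hmpos.ne']
    congr 1
    push_cast
    ring
  rw [h3] at h1
  have h4 : Real.log n ≤ 2 * Real.log m + 0.06282 := by
    have h5 : (n : ℝ) ≤ 10000 / 9409 * (m : ℝ) ^ 2 := by
      rw [div_mul_eq_mul_div, le_div_iff₀ (by norm_num)]
      linarith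
    have h6 := Real.log_le_log hnpos h5
    rw [Real.log_mul (by norm_num) (by positivity), Real.log_pow] at h6
    have h7 := Real.log_le_sub_one_of_pos (show (0 : ℝ) < 10000 / 9409 by norm_num)
    push_cast at h6
    norm_num at h7 ⊢
    linarith
  have h5 : Real.log 2 ≥ 0.693147 := by
    have := Real.log_two_gt_d9
    linarith
  have h6 : Real.log m ≤ Real.log ((m : ℝ) + 1) := Real.log_le_log hmpos (by linarith)
  have h7 : (m : ℝ) * Real.log n ≤ m * (2 * Real.log m + 0.06282) :=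
    mul_le_mul_of_nonneg_left h4 hmpos.le
  have h8 : (m : ℝ) * 0.693147 ≤ m * Real.log 2 := mul_le_mul_of_nonneg_left h5 hmpos.le
  push_cast at h1
  nlinarith

theorem end_R (n m R : ℕ) (y : ℝ) (hy : y = (1 + 1 / 20000) * m / Real.exp 1) (hm : 40 ≤ m)
    (hmn : m < n) (hn : 9409 * (n : ℝ) ≤ 10000 * (m : ℝ) ^ 2) (hR : 20 * R ≤ m)
    (hR' : m < 20 * R + 20) :
    ((m + 1).factorial : ℝ) * ((n : ℝ) ^ R * R.factorial * y ^ m * (2 / y) ^ R /
      ((m + R).factorial : ℝ) ^ 2) ≤ Real.exp (-(m : ℝ) / 64 + 3 * Real.log (m + 1) + 4) := by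
  have hm20 : (40 : ℝ) ≤ m := by exact_mod_cast hm
  have hmpos : (0 : ℝ) < m := by linarith
  have hnm : (m : ℝ) < n := by exact_mod_cast hmn
  have hnpos : (0 : ℝ) < n := by linarith
  have hR1 : 1 ≤ R := by omega
  have hRpos : (0 : ℝ) < R := by exact_mod_cast hR1
  have hRR : 20 * (R : ℝ) ≤ m := by exact_mod_cast hR
  have hRR' : (m : ℝ) < 20 * R + 20 := by exact_mod_cast hR'
  have he : (0 : ℝ) < Real.exp 1 := Real.exp_pos 1
  have hy0 : 0 < y := by rw [hy]; positivity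
  have hlogy : Real.log y ≤ 1 / 20000 + Real.log m - 1 := by
    rw [hy, Real.log_div (by positivity) he.ne', Real.log_mul (by norm_num) hmpos.ne', Real.log_exp]
    have := Real.log_le_sub_one_of_pos (show (0 : ℝ) < 1 + 1 / 20000 by norm_num)
    linarith
  have hpos : 0 < ((m + 1).factorial : ℝ) * ((n : ℝ) ^ R * R.factorial * y ^ m * (2 / y) ^ R /
      ((m + R).factorial : ℝ) ^ 2) := by positivity
  rw [← Real.log_le_iff_le_exp hpos, Real.log_mul (by positivity) (by positivity),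
    Real.log_div (by positivity) (by positivity), Real.log_mul (by positivity) (by positivity),
    Real.log_mul (by positivity) (by positivity), Real.log_mul (by positivity) (by positivity),
    Real.log_pow, Real.log_pow, Real.log_pow, Real.log_pow, Real.log_div (by norm_num) hy0.ne',
    Nat.factorial_succ]
  push_cast
  rw [Real.log_mul (by positivity) (by positivity)]
  have h1 := log_fact_ge (m + R)
  have h2 := log_fact_le m (by omega)
  have h2' := log_fact_le R hR1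
  have h3 : ((m : ℝ) + R) * Real.log m + R ≤ ((m : ℝ) + R) * Real.log ((m : ℝ) + R) := by
    have h4 := Real.one_sub_inv_le_log_of_pos (show (0 : ℝ) < ((m : ℝ) + R) / m by positivity)
    rw [Real.log_div (by positivity) hmpos.ne'] at h4
    have h5 := mul_le_mul_of_nonneg_left h4 (show (0 : ℝ) ≤ (m : ℝ) + R by positivity)
    have h6 : ((m : ℝ) + R) * (1 - (((m : ℝ) + R) / m)⁻¹) = R := by
      field_simp
      ring
    rw [h6] at h5
    linarith
  have h4 : Real.log n ≤ 2 * Real.log m + 0.06282 := by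
    have h5 : (n : ℝ) ≤ 10000 / 9409 * (m : ℝ) ^ 2 := by
      rw [div_mul_eq_mul_div, le_div_iff₀ (by norm_num)]
      linarith
    have h6 := Real.log_le_log hnpos h5
    rw [Real.log_mul (by norm_num) (by positivity), Real.log_pow] at h6
    have h7 := Real.log_le_sub_one_of_pos (show (0 : ℝ) < 10000 / 9409 by norm_num)
    push_cast at h6
    norm_num at h7 ⊢
    linarith
  have h5 : Real.log 2 ≤ 0.7 := by
    have := Real.log_two_lt_d9
    linarith
  have h5' : 0.69 ≤ Real.log 2 := by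
    have := Real.log_two_gt_d9
    linarith
  have h6 : Real.log m ≤ Real.log ((m : ℝ) + 1) := Real.log_le_log hmpos (by linarith)
  -- `log R ≤ log m - log 16`
  have h9 : Real.log R ≤ Real.log m - 4 * Real.log 2 := by
    have h10 : Real.log ((R : ℝ) * 2 ^ 4) ≤ Real.log m := Real.log_le_log (by positivity) (by linarith)
    rw [Real.log_mul hRpos.ne' (by positivity), Real.log_pow] at h10
    push_cast at h10
    linarith
  have h7 : (R : ℝ) * Real.log n ≤ R * (2 * Real.log m + 0.06282) :=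
    mul_le_mul_of_nonneg_left h4 hRpos.le
  have h8 : (R : ℝ) * Real.log R ≤ R * (Real.log m - 4 * Real.log 2) :=
    mul_le_mul_of_nonneg_left h9 hRpos.le
  have h10 : ((m : ℝ) - R) * Real.log y ≤ ((m : ℝ) - R) * (1 / 20000 + Real.log m - 1) :=
    mul_le_mul_of_nonneg_left hlogy (by linarith)
  have h11 : (R : ℝ) * 0.69 ≤ R * Real.log 2 := mul_le_mul_of_nonneg_left h5' hRpos.le
  have h12 : Real.log R ≤ Real.log ((m : ℝ) + 1) := by linarith
  push_cast at h1
  nlinarith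

theorem F_max (n m R : ℕ) (y : ℝ) (hy : 0 < y) (hn : 1 ≤ n) (r : ℕ) (hRr : R ≤ r) (hr : r ≤ m) :
    (n : ℝ) ^ r * r.factorial * y ^ m * (2 / y) ^ r / ((m + r).factorial : ℝ) ^ 2 ≤
      max ((n : ℝ) ^ R * R.factorial * y ^ m * (2 / y) ^ R / ((m + R).factorial : ℝ) ^ 2)
        ((n : ℝ) ^ m * m.factorial * y ^ m * (2 / y) ^ m / ((m + m).factorial : ℝ) ^ 2) := by
  have hn' : (0 : ℝ) < n := by exact_mod_cast hn
  refine max_lem (fun r => (n : ℝ) ^ r * r.factorial * y ^ m * (2 / y) ^ r /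
      ((m + r).factorial : ℝ) ^ 2)
    (fun j => n * (2 / y) * (((j : ℝ) + 1) / ((m : ℝ) + j + 1) ^ 2)) R m (fun j => by positivity)
    ?_ ?_ r hRr hr
  · intro j _ _
    rw [← Nat.add_assoc, Nat.factorial_succ (m + j), Nat.factorial_succ j, pow_succ, pow_succ]
    push_cast
    field_simp
  · intro i j _ hij hjm
    have h1 : (i : ℝ) ≤ j := by exact_mod_cast hij
    have h2 : (j : ℝ) + 1 ≤ m := by exact_mod_cast hjm
    have h3 : (0 : ℝ) ≤ i := Nat.cast_nonneg i
    refine mul_le_mul_of_nonneg_left ?_ (by positivity)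
    rw [div_le_div_iff₀ (by positivity) (by positivity)]
    have h4 : 0 ≤ ((j : ℝ) - i) * ((m : ℝ) * m - ((i : ℝ) + 1) * (j + 1)) := by
      refine mul_nonneg (by linarith) ?_
      have h5 : ((i : ℝ) + 1) * (j + 1) ≤ m * m :=
        mul_le_mul (by linarith) h2 (by positivity) (by positivity)
      linarith
    nlinarith

/-- the terms with `r` large -/
theorem large_term : ∃ m₀ : ℕ, ∀ n m r : ℕ, m₀ ≤ m → m < n →
    9409 * (n : ℝ) ≤ 10000 * (m : ℝ) ^ 2 → m / 20 ≤ r → 1 ≤ r → r ≤ m →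
    (n.choose (m + r) : ℝ) * r.factorial * W m r / (m + r).factorial ≤
      (n.choose (m + 1) : ℝ) * (Real.exp 120 *
        Real.exp (-(m : ℝ) / 64 + 3 * Real.log (m + 1) + 4)) := by
  obtain ⟨m₀, hm₀, hS⟩ := S_le
  refine ⟨max m₀ 40, fun n m r hm hmn hn hrR hr1 hr => ?_⟩
  have hmm : m₀ ≤ m := (le_max_left _ _).trans hm
  have hm40 : 40 ≤ m := (le_max_right _ _).trans hm
  have hmpos : (0 : ℝ) < m := by
    have : 0 < m := by omega
    exact_mod_cast this
  have hn1 : 1 ≤ n := by omega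
  have hnpos : (0 : ℝ) < n := by exact_mod_cast hn1
  have he : (0 : ℝ) < Real.exp 1 := Real.exp_pos 1
  obtain ⟨y, hy⟩ : ∃ y : ℝ, y = (1 + 1 / 20000) * m / Real.exp 1 := ⟨_, rfl⟩
  have hy0 : 0 < y := by rw [hy]; positivity
  obtain ⟨S, hSdef⟩ : ∃ S : ℝ, S = ∑ b ∈ Icc 1 m, ((b + 1).factorial : ℝ) / y ^ b := ⟨_, rfl⟩
  have hS1 : S ≤ 2 / y * (1 + 120 / m) := by rw [hSdef]; exact hS m hmm y hy
  have hS0 : 0 ≤ S := by rw [hSdef]; positivity
  have h2 : (W m r : ℝ) ≤ y ^ m * ((2 / y) ^ r * Real.exp 120) := by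
    refine (W_le m r y hy0).trans (mul_le_mul_of_nonneg_left ?_ (by positivity))
    rw [← hSdef]
    calc S ^ r ≤ (2 / y * (1 + 120 / m)) ^ r := pow_le_pow_left₀ hS0 hS1 r
      _ = (2 / y) ^ r * (1 + 120 / m) ^ r := mul_pow _ _ _
      _ ≤ (2 / y) ^ r * Real.exp 120 := by
          refine mul_le_mul_of_nonneg_left ?_ (by positivity)
          calc (1 + 120 / (m : ℝ)) ^ r ≤ (Real.exp (120 / m)) ^ r := by
                refine pow_le_pow_left₀ (by positivity) ?_ r
                have := Real.add_one_le_exp (120 / (m : ℝ))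
                linarith
            _ = Real.exp (r * (120 / m)) := by rw [← Real.exp_nat_mul]
            _ ≤ Real.exp 120 := by
                apply Real.exp_le_exp.2
                have h3 : (r : ℝ) ≤ m := by exact_mod_cast hr
                calc (r : ℝ) * (120 / m) ≤ m * (120 / m) :=
                      mul_le_mul_of_nonneg_right h3 (by positivity)
                  _ = 120 := by field_simp
  have hf : (0 : ℝ) < (m + r).factorial := by exact_mod_cast Nat.factorial_pos _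
  have h1 : (n.choose (m + r) : ℝ) * (m + r).factorial ≤
      (n.choose (m + 1) : ℝ) * (m + 1).factorial * (n : ℝ) ^ (r - 1) := by
    exact_mod_cast Pool.Agent.V7H46.CC.choose_le n m r hr1
  have h1' : (n : ℝ) ^ (r - 1) ≤ (n : ℝ) ^ r :=
    pow_le_pow_right₀ (by exact_mod_cast hn1) (by omega)
  have h3 : (n.choose (m + r) : ℝ) ≤
      (n.choose (m + 1) : ℝ) * (m + 1).factorial * (n : ℝ) ^ r / (m + r).factorial := by
    rw [le_div_iff₀ hf]
    exact h1.trans (mul_le_mul_of_nonneg_left h1' (by positivity))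
  have h4 := F_max n m (m / 20) y hy0 hn1 r hrR hr
  have h5 : ((m + 1).factorial : ℝ) * ((n : ℝ) ^ r * r.factorial * y ^ m * (2 / y) ^ r /
      ((m + r).factorial : ℝ) ^ 2) ≤ Real.exp (-(m : ℝ) / 64 + 3 * Real.log (m + 1) + 4) := by
    refine (mul_le_mul_of_nonneg_left h4 (by positivity)).trans ?_
    rcases max_choice ((n : ℝ) ^ (m / 20) * (m / 20).factorial * y ^ m * (2 / y) ^ (m / 20) /
        ((m + m / 20).factorial : ℝ) ^ 2)
      ((n : ℝ) ^ m * m.factorial * y ^ m * (2 / y) ^ m / ((m + m).factorial : ℝ) ^ 2) with h | h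
    · rw [h]
      exact end_R n m (m / 20) y hy hm40 hmn hn (by omega) (by omega)
    · rw [h]
      exact end_m n m y hy0 (by omega) hmn hn
  calc (n.choose (m + r) : ℝ) * r.factorial * W m r / (m + r).factorial
      ≤ ((n.choose (m + 1) : ℝ) * (m + 1).factorial * (n : ℝ) ^ r / (m + r).factorial) *
        r.factorial * (y ^ m * ((2 / y) ^ r * Real.exp 120)) / (m + r).factorial := by
        gcongr
    _ = (n.choose (m + 1) : ℝ) * (Real.exp 120 * (((m + 1).factorial : ℝ) *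
        ((n : ℝ) ^ r * r.factorial * y ^ m * (2 / y) ^ r / ((m + r).factorial : ℝ) ^ 2))) := by
        field_simp
    _ ≤ _ := by
        refine mul_le_mul_of_nonneg_left ?_ (Nat.cast_nonneg _)
        exact mul_le_mul_of_nonneg_left h5 (Real.exp_pos _).le

theorem exp_small : ∃ m₀ : ℕ, ∀ m : ℕ, m₀ ≤ m →
    (m : ℝ) * (Real.exp 120 * Real.exp (-(m : ℝ) / 64 + 3 * Real.log (m + 1) + 4)) ≤
      1 / (4 * m) := by
  have hq : |Real.exp (-(1 : ℝ) / 64)| < 1 := by
    rw [abs_of_pos (Real.exp_pos _), Real.exp_lt_one_iff]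
    norm_num
  have h1 := tendsto_pow_const_mul_const_pow_of_abs_lt_one 5 hq
  have h0 : (0 : ℝ) < 1 / (32 * Real.exp 124) := by positivity
  obtain ⟨m₀, hm₀⟩ := Filter.eventually_atTop.1 (h1.eventually (gt_mem_nhds h0))
  refine ⟨max m₀ 1, fun m hm => ?_⟩
  have h2 := hm₀ m ((le_max_left _ _).trans hm)
  have hm1 : (1 : ℝ) ≤ m := by exact_mod_cast (le_max_right _ _).trans hm
  have hmpos : (0 : ℝ) < m := by linarith
  have e1 : Real.exp (-(m : ℝ) / 64 + 3 * Real.log (m + 1) + 4) =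
      Real.exp (-(1 : ℝ) / 64) ^ m * ((m : ℝ) + 1) ^ 3 * Real.exp 4 := by
    rw [Real.exp_add, Real.exp_add, ← Real.exp_nat_mul]
    congr 2
    · congr 1
      ring
    · have : 3 * Real.log ((m : ℝ) + 1) = Real.log (((m : ℝ) + 1) ^ 3) := by
        rw [Real.log_pow]
        push_cast
        ring
      rw [this, Real.exp_log (by positivity)]
  have e2 : Real.exp 120 * Real.exp 4 = Real.exp 124 := by
    rw [← Real.exp_add]
    norm_num
  have hq0 : (0 : ℝ) < Real.exp (-(1 : ℝ) / 64) ^ m := by positivity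
  rw [e1, le_div_iff₀ (by positivity)]
  have e3 : ((m : ℝ) + 1) ^ 3 ≤ 8 * (m : ℝ) ^ 3 := by
    have : ((m : ℝ) + 1) ^ 3 ≤ (2 * (m : ℝ)) ^ 3 := pow_le_pow_left₀ (by positivity) (by linarith) 3
    calc _ ≤ _ := this
      _ = _ := by ring
  rw [lt_div_iff₀ (by positivity)] at h2
  calc (m : ℝ) * (Real.exp 120 * (Real.exp (-(1 : ℝ) / 64) ^ m * ((m : ℝ) + 1) ^ 3 *
        Real.exp 4)) * (4 * m) =
        4 * (m : ℝ) ^ 2 * (Real.exp 120 * Real.exp 4) * Real.exp (-(1 : ℝ) / 64) ^ m *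
          ((m : ℝ) + 1) ^ 3 := by ring
    _ ≤ 4 * (m : ℝ) ^ 2 * (Real.exp 120 * Real.exp 4) * Real.exp (-(1 : ℝ) / 64) ^ m *
          (8 * (m : ℝ) ^ 3) := mul_le_mul_of_nonneg_left e3 (by positivity)
    _ = (m : ℝ) ^ 5 * Real.exp (-(1 : ℝ) / 64) ^ m * (32 * Real.exp 124) := by
        rw [e2]
        ring
    _ ≤ 1 := h2.le

/-- (AVB97) from (WB) and (AVB) -/
theorem t_AVB97' (hW : S_WB) (hA : S_AVB) : S_AVB97 := by
  obtain ⟨n₁, h1⟩ := hA
  obtain ⟨m₁, h2⟩ := large_term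
  obtain ⟨m₂, h3⟩ := exp_small
  refine ⟨max n₁ (2 * (max (max m₁ m₂) 40) ^ 2 + 1), 100, fun n m hn hm hmn => ?_⟩
  have hn₁ : n₁ ≤ n := (le_max_left _ _).trans hn
  rcases Nat.lt_or_ge (m ^ 2) (4 * n) with hlt | hge
  swap
  · exact h1 n m hn₁ hge hmn
  have hn₂ : 2 * (max (max m₁ m₂) 40) ^ 2 + 1 ≤ n := (le_max_right _ _).trans hn
  have hmbig : max (max m₁ m₂) 40 ≤ m := by
    by_contra hcon
    rw [not_le] at hcon
    have h4 : m ^ 2 ≤ (max (max m₁ m₂) 40) ^ 2 := Nat.pow_le_pow_left hcon.le 2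
    nlinarith
  have hm₁ : m₁ ≤ m := ((le_max_left _ _).trans (le_max_left _ _)).trans hmbig
  have hm₂ : m₂ ≤ m := ((le_max_right _ _).trans (le_max_left _ _)).trans hmbig
  have hm40 : 40 ≤ m := (le_max_right _ _).trans hmbig
  have hmpos : (0 : ℝ) < m := by
    have : 0 < m := by omega
    exact_mod_cast this
  have hnR : 9409 * (n : ℝ) ≤ 10000 * (m : ℝ) ^ 2 := by
    have h5 : (97 : ℝ) ^ 2 * n ≤ (100 * m) ^ 2 := by exact_mod_cast hm
    nlinarith
  have hltR : (m : ℝ) ^ 2 ≤ 4 * n := by exact_mod_cast hlt.le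
  have hc : (0 : ℝ) ≤ n.choose (m + 1) := Nat.cast_nonneg _
  obtain ⟨T, hT⟩ : ∃ T : ℕ → ℝ, T = fun r => (n.choose (m + r) : ℝ) * r.factorial * W m r /
    (m + r).factorial := ⟨_, rfl⟩
  have hT0 : ∀ r, 0 ≤ T r := fun r => by rw [hT]; positivity
  have hsplit : ∑ r ∈ Icc 1 m, T r ≤ T 1 + ∑ r ∈ Icc 2 (m / 20), T r +
      ∑ r ∈ Icc (m / 20) m, T r := by
    have e1 : Icc 1 m = insert 1 (Icc 2 m) := by
      ext x
      simp only [mem_Icc, mem_insert]
      omega
    have e2 : (1 : ℕ) ∉ Icc 2 m := by simp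
    rw [e1, sum_insert e2]
    have e3 : ∑ r ∈ Icc 2 m, T r ≤ ∑ r ∈ Icc 2 (m / 20) ∪ Icc (m / 20) m, T r := by
      refine sum_le_sum_of_subset_of_nonneg ?_ fun r _ _ => hT0 r
      intro x
      simp only [mem_union, mem_Icc]
      omega
    have e4 : ∑ r ∈ Icc 2 (m / 20) ∪ Icc (m / 20) m, T r ≤
        ∑ r ∈ Icc 2 (m / 20), T r + ∑ r ∈ Icc (m / 20) m, T r := by
      rw [← Finset.sum_union_inter]
      have : 0 ≤ ∑ r ∈ Icc 2 (m / 20) ∩ Icc (m / 20) m, T r := sum_nonneg fun r _ => hT0 r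
      linarith
    linarith
  have hfirst : T 1 ≤ n.choose (m + 1) := by
    have hf : (0 : ℝ) < (m + 1).factorial := by exact_mod_cast Nat.factorial_pos _
    have h5 := hW m 1 le_rfl (by omega)
    have h6 : m - 1 + 2 = m + 1 := by omega
    rw [h6, Nat.sub_self, pow_zero, one_mul] at h5
    have h7 : (W m 1 : ℝ) ≤ (m + 1).factorial := by exact_mod_cast h5
    rw [hT]
    simp only
    rw [div_le_iff₀ hf, Nat.factorial_one, Nat.cast_one, mul_one]
    exact mul_le_mul_of_nonneg_left h7 hc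
  have hsmall : ∑ r ∈ Icc 2 (m / 20), T r ≤
      (n.choose (m + 1) : ℝ) * (28 * (n : ℝ) / (m : ℝ) ^ 3) := by
    refine le_trans (sum_le_sum fun r hr => ?_) (le_trans (le_of_eq (mul_sum _ _ _).symm)
      (mul_le_mul_of_nonneg_left (small_sum n m (m / 20) (by omega) hnR (by omega)) hc))
    rw [mem_Icc] at hr
    rw [hT]
    exact Pool.Agent.V7H46.CC.term_le hW n m r (by omega) (by omega)
  have hlarge : ∑ r ∈ Icc (m / 20) m, T r ≤ (n.choose (m + 1) : ℝ) * ((n : ℝ) / (m : ℝ) ^ 3) := by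
    obtain ⟨E, hE⟩ : ∃ E : ℝ, E = Real.exp 120 *
      Real.exp (-(m : ℝ) / 64 + 3 * Real.log (m + 1) + 4) := ⟨_, rfl⟩
    have hE0 : 0 < E := by rw [hE]; positivity
    have h4 : ∀ r ∈ Icc (m / 20) m, T r ≤ (n.choose (m + 1) : ℝ) * E := by
      intro r hr
      rw [mem_Icc] at hr
      rw [hT, hE]
      exact h2 n m r hm₁ hmn hnR hr.1 (by omega) hr.2
    refine (Finset.sum_le_card_nsmul _ _ _ h4).trans ?_
    rw [Nat.card_Icc, nsmul_eq_mul]
    have h5 : ((m + 1 - m / 20 : ℕ) : ℝ) ≤ m := by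
      have : m + 1 - m / 20 ≤ m := by omega
      exact_mod_cast this
    have h6 := h3 m hm₂
    rw [← hE] at h6
    have h7 : 1 / (4 * (m : ℝ)) ≤ (n : ℝ) / (m : ℝ) ^ 3 := by
      rw [div_le_div_iff₀ (by positivity) (by positivity)]
      nlinarith
    calc ((m + 1 - m / 20 : ℕ) : ℝ) * ((n.choose (m + 1) : ℝ) * E) ≤
          (m : ℝ) * ((n.choose (m + 1) : ℝ) * E) :=
          mul_le_mul_of_nonneg_right h5 (by positivity)
      _ = (n.choose (m + 1) : ℝ) * (m * E) := by ring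
      _ ≤ _ := mul_le_mul_of_nonneg_left (h6.trans h7) hc
  have hgoal : ∑ r ∈ Icc 1 m, (n.choose (m + r) : ℝ) * r.factorial * W m r / (m + r).factorial =
      ∑ r ∈ Icc 1 m, T r := by rw [hT]
  rw [hgoal]
  have hpos : (0 : ℝ) ≤ (n.choose (m + 1) : ℝ) * ((n : ℝ) / (m : ℝ) ^ 3) := by positivity
  calc ∑ r ∈ Icc 1 m, T r ≤ (n.choose (m + 1) : ℝ) +
        (n.choose (m + 1) : ℝ) * (28 * (n : ℝ) / (m : ℝ) ^ 3) +
        (n.choose (m + 1) : ℝ) * ((n : ℝ) / (m : ℝ) ^ 3) := by linarith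
    _ = (n.choose (m + 1) : ℝ) + 29 * ((n.choose (m + 1) : ℝ) * ((n : ℝ) / (m : ℝ) ^ 3)) := by ring
    _ ≤ (n.choose (m + 1) : ℝ) + 100 * ((n.choose (m + 1) : ℝ) * ((n : ℝ) / (m : ℝ) ^ 3)) := by
        linarith
    _ = _ := by ring

theorem t_AVB97 : S_AVB97 :=
  t_AVB97' (t_WB Pool.Agent.V7H80.CC.t_FACT)
    (Pool.Agent.V7H46.CC.t_AVB (t_WB Pool.Agent.V7H80.CC.t_FACT) Pool.Agent.V7H98.CC.t_RHO)

end Pool.Agent.V7H90.CC
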